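import Mathlib

set_option autoImplicit false

namespace Pool.Agent.Results.MP_86f508_lc.NotElem

open FirstOrder Language Cardinal

/-- Operation symbols of relation algebras. -/
inductive Op : ℕ → Type
  | zero : Op 0
  | one : Op 0
  | ident : Op 0
  | compl : Op 1
  | conv : Op 1
  | join : Op 2
  | meet : Op 2
  | comp : Op 2

def L : Language := ⟨Op, fun _ => Empty⟩

section
variable {M : Type} [L.Structure M]

def c0 (o : Op 0) : M := Structure.funMap (L := L) o ![]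
def c1 (o : Op 1) (x : M) : M := Structure.funMap (L := L) o ![x]
def c2 (o : Op 2) (x y : M) : M := Structure.funMap (L := L) o ![x, y]

end

open Op in
/-- Tarski's axioms for relation algebras. -/
def IsRA (M : Type) [L.Structure M] : Prop := ∀ x y z : M,
  c2 join x y = c2 join y x ∧ c2 meet x y = c2 meet y x ∧
  c2 join (c2 join x y) z = c2 join x (c2 join y z) ∧
  c2 meet (c2 meet x y) z = c2 meet x (c2 meet y z) ∧
  c2 join x (c2 meet x y) = x ∧ c2 meet x (c2 join x y) = x ∧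
  c2 meet x (c2 join y z) = c2 join (c2 meet x y) (c2 meet x z) ∧
  c2 join x (c1 compl x) = c0 one ∧ c2 meet x (c1 compl x) = c0 zero ∧
  c2 comp (c2 comp x y) z = c2 comp x (c2 comp y z) ∧ c2 comp x (c0 ident) = x ∧
  c2 comp (c2 join x y) z = c2 join (c2 comp x z) (c2 comp y z) ∧
  c1 conv (c1 conv x) = x ∧ c1 conv (c2 join x y) = c2 join (c1 conv x) (c1 conv y) ∧
  c1 conv (c2 comp x y) = c2 comp (c1 conv y) (c1 conv x) ∧
  c2 join (c2 comp (c1 conv x) (c1 compl (c2 comp x y))) (c1 compl y) = c1 compl y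

variable (G A : Type) [Group G] [MulAction G A]

/-- Relations compatible with the action. -/
def Rel : Type := {R : Set (A × A) // ∀ (g : G) x y, (x, y) ∈ R → (g • x, g • y) ∈ R}

instance : L.Structure (Rel G A) where
  funMap
    | .zero, _ => ⟨∅, by simp⟩
    | .one, _ => ⟨Set.univ, by simp⟩
    | .ident, _ => ⟨{p | p.1 = p.2}, by simp⟩
    | .compl, v => ⟨(v 0).1ᶜ, fun g x y h h' => h (by simpa using (v 0).2 g⁻¹ _ _ h')⟩
    | .conv, v => ⟨{p | (p.2, p.1) ∈ (v 0).1}, fun g _ _ h => (v 0).2 g _ _ h⟩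
    | .join, v => ⟨(v 0).1 ∪ (v 1).1, fun g _ _ h => h.imp ((v 0).2 g _ _) ((v 1).2 g _ _)⟩
    | .meet, v => ⟨(v 0).1 ∩ (v 1).1, fun g _ _ h => h.imp ((v 0).2 g _ _) ((v 1).2 g _ _)⟩
    | .comp, v => ⟨{p | ∃ z, (p.1, z) ∈ (v 0).1 ∧ (z, p.2) ∈ (v 1).1},
        fun g _ _ ⟨z, h⟩ => ⟨g • z, h.imp ((v 0).2 g _ _) ((v 1).2 g _ _)⟩⟩
  RelMap r := r.elim

/-- The class of structures isomorphic to `Rel G A` for a nonempty `G`-set `A`. -/
def InK (M : Type) [L.Structure M] : Prop :=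
  ∃ (A : Type) (_ : Nonempty A) (_ : MulAction G A), Nonempty (M ≃[L] Rel G A)

theorem card (A : Type) [MulAction G A] : ∃ κ : Cardinal, #(Rel G A) = 2 ^ κ := by
  refine ⟨#(MulAction.orbitRel.Quotient G (A × A)), ?_⟩
  rw [← mk_set]
  refine (mk_congr (Equiv.ofBijective (fun S => (⟨Quotient.mk _ ⁻¹' S, fun g x y h => ?_⟩ :
    Rel G A)) ⟨fun S T e => ?_, fun R => ⟨Quotient.mk _ '' R.1, Subtype.ext ?_⟩⟩)).symm
  · have : Quotient.mk (MulAction.orbitRel G (A × A)) (g • x, g • y) = Quotient.mk _ (x, y) :=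
      Quotient.sound ⟨g, rfl⟩
    exact Set.mem_preimage.2 (this ▸ h)
  · exact Quotient.mk_surjective.preimage_injective (congrArg Subtype.val e)
  · refine Set.Subset.antisymm ?_ (Set.subset_preimage_image _ _)
    rintro p ⟨q, h, e⟩
    obtain ⟨g, rfl⟩ := Quotient.exact e.symm
    exact R.2 g _ _ h

theorem rel_ra : IsRA (Rel G A) := fun x y z => by
  refine ⟨?_, ?_, ?_, ?_, ?_, ?_, ?_, ?_, ?_, ?_, ?_, ?_, ?_, ?_, ?_, ?_⟩ <;>
    refine Subtype.ext (Set.ext fun p => ?_) <;> simp [c0, c1, c2, Structure.funMap] <;> grind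

theorem IsRA.sub {M N : Type} [L.Structure M] [L.Structure N] (h : IsRA M) (f : N ↪[L] M) :
    IsRA N := fun x y z => by
  have e0 : ∀ o, f (c0 o) = c0 o := fun o => (f.map_fun _ _).trans 
    (congrArg _ (funext fun i => i.elim0))
  have e1 : ∀ o x, f (c1 o x) = c1 o (f x) := fun o x => (f.map_fun _ _).trans 
    (congrArg _ (funext fun i => by fin_cases i; rfl))
  have e2 : ∀ o x y, f (c2 o x y) = c2 o (f x) (f y) := fun o x y => (f.map_fun _ _).trans 
    (congrArg _ (funext fun i => by fin_cases i <;> rfl))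
  simpa only [← f.injective.eq_iff, e0, e1, e2] using h (f x) (f y) (f z)

theorem result (p : ℕ) (T : L.Theory) : ¬ ∀ (M : Type) [L.Structure M], IsRA M →
    (InK (Multiplicative (ZMod p)) M ↔ M ⊨ T) := by
  intro h
  let : MulAction (Multiplicative (ZMod p)) ℕ :=
    { smul := fun _ x => x, one_smul := fun _ => rfl, mul_smul := fun _ _ _ => rfl }
  have : Infinite (Rel (Multiplicative (ZMod p)) ℕ) := Infinite.of_injective
    (fun n : ℕ => ⟨{(n, n)}, fun _ _ _ h => h⟩) fun m n e => by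
      simpa using congrArg Subtype.val e
  have hL : L.card ≤ ℵ₀ := by
    have : Countable L.Symbols := Function.Surjective.countable (f := fun i : Fin 8 =>
      (Sum.inl (![⟨0, .zero⟩, ⟨0, .one⟩, ⟨0, .ident⟩, ⟨1, .compl⟩, ⟨1, .conv⟩, ⟨2, .join⟩,
        ⟨2, .meet⟩, ⟨2, .comp⟩] i) : L.Symbols)) (by
      rintro (⟨_, _ | _ | _ | _ | _ | _ | _ | _⟩ | ⟨_, ⟨⟩⟩)
      exacts [⟨0, rfl⟩, ⟨1, rfl⟩, ⟨2, rfl⟩, ⟨3, rfl⟩, ⟨4, rfl⟩, ⟨5, rfl⟩, ⟨6, rfl⟩, ⟨7, rfl⟩])
    exact mk_le_aleph0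
  obtain ⟨N, -, h2⟩ := exists_elementarySubstructure_card_eq L
    (∅ : Set (Rel (Multiplicative (ZMod p)) ℕ)) ℵ₀ le_rfl (by simp) (by simpa using hL)
    (by simp)
  obtain ⟨A, -, _, ⟨e⟩⟩ := (h N ((rel_ra _ _).sub N.subtype.toEmbedding)).2
    ((N.theory_model_iff T).2
      ((h _ (rel_ra _ _)).1 ⟨ℕ, inferInstance, _, ⟨Language.Equiv.refl _ _⟩⟩))
  obtain ⟨κ, hκ⟩ := card (Multiplicative (ZMod p)) A
  rw [lift_id, lift_id] at h2
  rw [← mk_congr e.toEquiv, h2] at hκ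
  rcases lt_or_ge κ ℵ₀ with l | l
  · exact (power_lt_aleph0 (nat_lt_aleph0 2) l).ne' hκ
  · exact (l.trans_lt (cantor κ)).ne hκ

end Pool.Agent.Results.MP_86f508_lc.NotElem
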